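import Pool.Agent.W912.SE.Defs

set_option autoImplicit false

namespace Pool.Agent.W298.SE

theorem t_AMP : Pool.Agent.W912.SE.S_AMP := by
  classical
  intro R _ _ h B hB
  have h1 : (∑ r : R, (if r ∈ B then (2 : ℝ) else 1)) ^ (2 * h)
      = ∑ ρ : Fin (2 * h) → R, ∏ i, (if ρ i ∈ B then (2 : ℝ) else 1) := Fintype.sum_pow _ _
  have h2 : ∑ r : R, (if r ∈ B then (2 : ℝ) else 1) = (Fintype.card R : ℝ) + B.card := by
    have e : ∀ r : R, (if r ∈ B then (2 : ℝ) else 1) = 1 + (if r ∈ B then (1 : ℝ) else 0) := by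
      intro r; split_ifs <;> norm_num
    simp only [e, Finset.sum_add_distrib]
    simp
  have h3 : ∀ ρ : Fin (2 * h) → R, ∏ i, (if ρ i ∈ B then (2 : ℝ) else 1)
      = 2 ^ ((Finset.univ : Finset (Fin (2 * h))).filter (fun j => ρ j ∈ B)).card := by
    intro ρ
    rw [Finset.prod_ite, Finset.prod_const, Finset.prod_const, one_pow, mul_one]
  have h4 : (2 : ℝ) ^ h * (((Finset.univ : Finset (Fin (2 * h) → R)).filter (fun ρ =>
      h ≤ ((Finset.univ : Finset (Fin (2 * h))).filter (fun j => ρ j ∈ B)).card)).card : ℝ)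
      ≤ ((Fintype.card R : ℝ) + B.card) ^ (2 * h) := by
    rw [← h2, h1, mul_comm, ← nsmul_eq_mul, ← Finset.sum_const]
    refine le_trans (Finset.sum_le_sum (g := fun ρ => ∏ i, (if ρ i ∈ B then (2 : ℝ) else 1)) ?_)
      (Finset.sum_le_sum_of_subset_of_nonneg (Finset.filter_subset _ _) ?_)
    · intro ρ hρ
      rw [h3]
      exact pow_le_pow_right₀ (by norm_num) (Finset.mem_filter.1 hρ).2
    · intro ρ _ _
      rw [h3]
      positivity
  have h5 : ((Fintype.card R : ℝ) + B.card) ≤ 4 / 3 * (Fintype.card R : ℝ) := by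
    have : (3 : ℝ) * (B.card : ℝ) ≤ (Fintype.card R : ℝ) := by exact_mod_cast hB
    linarith
  have h6 : ((Fintype.card R : ℝ) + B.card) ^ (2 * h) ≤ (4 / 3 * (Fintype.card R : ℝ)) ^ (2 * h) :=
    pow_le_pow_left₀ (by positivity) h5 _
  have h7 : (4 / 3 * (Fintype.card R : ℝ)) ^ (2 * h)
      = 2 ^ h * ((8 / 9) ^ h * (Fintype.card R : ℝ) ^ (2 * h)) := by
    rw [mul_pow (4 / 3 : ℝ) _ (2 * h), pow_mul (4 / 3 : ℝ) 2 h, ← mul_assoc, ← mul_pow (2 : ℝ) (8 / 9) h]
    norm_num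
  have h8 : (0 : ℝ) < 2 ^ h := by positivity
  exact le_of_mul_le_mul_left (h4.trans (h6.trans h7.le)) h8

end Pool.Agent.W298.SE
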